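import Pool.Agent.W206.YP.Stm
import Pool.Agent.W206.CT.LG

/-! YL: the gradients of the gates are independent (project YP, MP_130685_nt). -/

set_option autoImplicit false

namespace Pool.Agent.W717.YP.YL

open Pool.Agent.W206.YP Pool.Agent.W206.CT

theorem sum_gr {G V : Type} [Fintype V] (κ : G → Bool) (nd : G × Fin 3 → V) (u : V → ℂ) (g : G)
    (δ : V → ℂ) :
    ∑ v, gr κ nd u g v * δ v = δ (nd (g, 2)) - (if κ g then 1 else u (nd (g, 1))) * δ (nd (g, 0)) -
      (if κ g then 1 else u (nd (g, 0))) * δ (nd (g, 1)) := by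
  classical
  unfold gr
  generalize (if κ g = true then (1 : ℂ) else u (nd (g, 1))) = a
  generalize (if κ g = true then (1 : ℂ) else u (nd (g, 0))) = b
  have h : ∀ x : V, ∑ v, (if x = v then (1 : ℂ) else 0) * δ v = δ x := by
    intro x
    simp
  have e : ∀ v, ((if nd (g, 2) = v then (1 : ℂ) else 0) - a * (if nd (g, 0) = v then 1 else 0) -
      b * (if nd (g, 1) = v then 1 else 0)) * δ v =
      (if nd (g, 2) = v then (1 : ℂ) else 0) * δ v -
        a * ((if nd (g, 0) = v then 1 else 0) * δ v) -
        b * ((if nd (g, 1) = v then 1 else 0) * δ v) := fun v => by ring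
  rw [Finset.sum_congr rfl (fun v _ => by convert e v), Finset.sum_sub_distrib,
    Finset.sum_sub_distrib, ← Finset.mul_sum, ← Finset.mul_sum, h, h, h]

section

variable {ι E : Type} [Fintype ι] [Fintype E] [DecidableEq ι] [DecidableEq E]
  {D : ℕ} {r : E → ℕ}

theorem ch_pos (e : {e : Ex ι D // ∃ b, 0 < (e.1 b : ℕ)}) : 0 < (e.1.1 (ch e) : ℕ) :=
  Classical.choose_spec e.2

theorem pre_val (e : {e : Ex ι D // ∃ b, 0 < (e.1 b : ℕ)}) (b : Bs ι) :
    ((pre e).1 b : ℕ) = if b = ch e then (e.1.1 b : ℕ) - 1 else (e.1.1 b : ℕ) := by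
  unfold pre
  dsimp only
  split_ifs <;> rfl

theorem pre_ch (e : {e : Ex ι D // ∃ b, 0 < (e.1 b : ℕ)}) :
    ((pre e).1 (ch e) : ℕ) + 1 = (e.1.1 (ch e) : ℕ) := by
  rw [pre_val, if_pos rfl]
  have := ch_pos e
  omega

theorem pre_ne (e : {e : Ex ι D // ∃ b, 0 < (e.1 b : ℕ)}) (b : Bs ι) (hb : b ≠ ch e) :
    ((pre e).1 b : ℕ) = (e.1.1 b : ℕ) := by
  rw [pre_val, if_neg hb]

theorem mo_pre (w lam : ι → ℂ) (μ : ℂ) (e : {e : Ex ι D // ∃ b, 0 < (e.1 b : ℕ)}) :
    mo w lam μ e.1 = mo w lam μ (pre e) * xb w lam μ (ch e) := by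
  unfold mo
  rw [← Finset.mul_prod_erase Finset.univ _ (Finset.mem_univ (ch e)),
    ← Finset.mul_prod_erase Finset.univ (fun b => xb w lam μ b ^ ((pre e).1 b : ℕ))
      (Finset.mem_univ (ch e)), ← pre_ch e, pow_succ]
  have h : ∏ b ∈ Finset.univ.erase (ch e), xb w lam μ b ^ (e.1.1 b : ℕ) =
      ∏ b ∈ Finset.univ.erase (ch e), xb w lam μ b ^ ((pre e).1 b : ℕ) := by
    refine Finset.prod_congr rfl fun b hb => ?_
    rw [pre_ne e b (Finset.ne_of_mem_erase hb)]
  rw [h]
  ring

theorem sum_pre (f : Bs ι → ℂ) (e : {e : Ex ι D // ∃ b, 0 < (e.1 b : ℕ)}) :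
    ∑ b, ((e.1.1 b : ℕ) : ℂ) * f b = ∑ b, (((pre e).1 b : ℕ) : ℂ) * f b + f (ch e) := by
  rw [← Finset.add_sum_erase Finset.univ _ (Finset.mem_univ (ch e)),
    ← Finset.add_sum_erase Finset.univ (fun b => (((pre e).1 b : ℕ) : ℂ) * f b)
      (Finset.mem_univ (ch e)), ← pre_ch e]
  have h : ∑ b ∈ Finset.univ.erase (ch e), ((e.1.1 b : ℕ) : ℂ) * f b =
      ∑ b ∈ Finset.univ.erase (ch e), (((pre e).1 b : ℕ) : ℂ) * f b := by
    refine Finset.sum_congr rfl fun b hb => ?_
    rw [pre_ne e b (Finset.ne_of_mem_erase hb)]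
  rw [h]
  push_cast
  ring

theorem deg_pre (e : {e : Ex ι D // ∃ b, 0 < (e.1 b : ℕ)}) :
    ∑ b, (e.1.1 b : ℕ) = ∑ b, ((pre e).1 b : ℕ) + 1 := by
  rw [← Finset.add_sum_erase Finset.univ _ (Finset.mem_univ (ch e)),
    ← Finset.add_sum_erase Finset.univ (fun b => ((pre e).1 b : ℕ))
      (Finset.mem_univ (ch e)), ← pre_ch e]
  have h : ∑ b ∈ Finset.univ.erase (ch e), (e.1.1 b : ℕ) =
      ∑ b ∈ Finset.univ.erase (ch e), ((pre e).1 b : ℕ) := by
    refine Finset.sum_congr rfl fun b hb => ?_
    rw [pre_ne e b (Finset.ne_of_mem_erase hb)]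
  rw [h]
  ring

theorem val_nb (ε : ∀ l, Fin (r l) → ℤ) (M : ∀ l, Fin (r l) → Ex ι D) (w lam : ι → ℂ) (μ : ℂ)
    (nu : E → ℂ) (b : Bs ι) :
    val ε M w lam μ nu (nb b : Nd ι E D r) = xb w lam μ b := by
  rcases b with _ | i | i
  · show mo w lam μ ex0 = μ
    unfold mo
    simp [ex0]
  · rfl
  · rfl

end

theorem main : S_YL := by
  classical
  intro ι E _ _ _ _ D r ε M w lam μ nu el hel hε hX hsupp hgrad
  have hr : ∀ l, 0 < r l := by
    intro l
    by_contra h
    have h0 : r l = 0 := by omega
    apply hgrad l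
    refine Finset.sum_eq_zero fun j _ => ?_
    exact absurd j.isLt (by omega)
  let B : Finset (Nd ι E D r) :=
    ((Finset.univ.image el)ᶜ.image (fun i : ι => (Sum.inl i : Nd ι E D r))) ∪
    (Finset.univ.image (fun i : ι => (Sum.inr (Sum.inl (Sum.inl i)) : Nd ι E D r))) ∪
    {mn ex0} ∪ (Finset.univ.image (fun l : E => (ps l ⟨0, hr l⟩ : Nd ι E D r)))
  refine t_lg (Nd ι E D r) (Gt ι E D r) ℂ _ B ?_ ?_
  · have hE : Fintype.card E ≤ Fintype.card ι := Fintype.card_le_of_injective el hel
    have h0 : ((Finset.univ.image el)ᶜ : Finset ι).card = Fintype.card ι - Fintype.card E := by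
      rw [Finset.card_compl, Finset.card_image_of_injective _ hel, Finset.card_univ]
    have h1 : B.card ≤ (Fintype.card ι - Fintype.card E) + Fintype.card ι + 1 +
        Fintype.card E := by
      refine (Finset.card_union_le _ _).trans ?_
      refine add_le_add ((Finset.card_union_le _ _).trans ?_) ?_
      · refine add_le_add ((Finset.card_union_le _ _).trans ?_) ?_
        · refine add_le_add ?_ ?_
          · exact Finset.card_image_le.trans h0.le
          · exact Finset.card_image_le.trans (by simp)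
        · simp
      · exact Finset.card_image_le.trans (by simp)
    have h2 : Fintype.card (Nd ι E D r) = Fintype.card ι + ((Fintype.card ι + Fintype.card ι) +
        (Fintype.card (Ex ι D) + ∑ l, r l)) := by
      simp only [Fintype.card_sum, Fintype.card_sigma, Fintype.card_fin]
    have h3 : Fintype.card (Gt ι E D r) = Fintype.card ι +
        (Fintype.card {e : Ex ι D // ∃ b, 0 < (e.1 b : ℕ)} + ∑ l, r l) := by
      simp only [Fintype.card_sum, Fintype.card_sigma, Fintype.card_fin]
    have h4 : Fintype.card {e : Ex ι D // ∃ b, 0 < (e.1 b : ℕ)} < Fintype.card (Ex ι D) := by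
      refine Fintype.card_subtype_lt (x := ex0) ?_
      rintro ⟨b, hb⟩
      simp [ex0] at hb
    omega
  · intro δ hδ hB
    have key : ∀ g : Gt ι E D r, δ (nd ε M (g, 2)) =
        (if kd g then 1 else val ε M w lam μ nu (nd ε M (g, 1))) * δ (nd ε M (g, 0)) +
        (if kd g then 1 else val ε M w lam μ nu (nd ε M (g, 0))) * δ (nd ε M (g, 1)) := by
      intro g
      have h := hδ g
      rw [sum_gr] at h
      linear_combination h
    have hw : ∀ i, i ∉ Set.range el → δ (Sum.inl i) = 0 := by
      intro i hi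
      refine hB _ ?_
      simp only [B, Finset.mem_union, Finset.mem_image, Finset.mem_compl, Finset.mem_univ,
        true_and]
      left; left; left
      exact ⟨i, fun ⟨l, hl⟩ => hi ⟨l, hl⟩, rfl⟩
    have hlam : ∀ i, δ (Sum.inr (Sum.inl (Sum.inl i))) = 0 := by
      intro i
      refine hB _ ?_
      simp only [B, Finset.mem_union, Finset.mem_image, Finset.mem_univ, true_and]
      left; left; right
      exact ⟨i, rfl⟩
    have hmu : δ (mn ex0) = 0 := by
      refine hB _ ?_
      simp only [B, Finset.mem_union, Finset.mem_singleton]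
      left; right
      trivial
    have hps0 : ∀ l, δ (ps l ⟨0, hr l⟩) = 0 := by
      intro l
      refine hB _ ?_
      simp only [B, Finset.mem_union, Finset.mem_image, Finset.mem_univ, true_and]
      right
      exact ⟨l, rfl⟩
    -- the sum gates
    have hW : ∀ i, δ (Sum.inr (Sum.inl (Sum.inr i))) = δ (Sum.inl i) := by
      intro i
      have h : δ (Sum.inr (Sum.inl (Sum.inr i))) =
          1 * δ (Sum.inl i) + 1 * δ (Sum.inr (Sum.inl (Sum.inl i))) := key (Sum.inl i)
      rw [h, hlam]
      ring
    -- the product gates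
    have hP : ∀ e : {e : Ex ι D // ∃ b, 0 < (e.1 b : ℕ)}, δ (mn e.1) =
        xb w lam μ (ch e) * δ (mn (pre e)) + mo w lam μ (pre e) * δ (nb (ch e)) := by
      intro e
      have h : δ (mn e.1) = val ε M w lam μ nu (nb (ch e)) * δ (mn (pre e)) +
          val ε M w lam μ nu (mn (pre e)) * δ (nb (ch e)) := key (Sum.inr (Sum.inl e))
      rw [val_nb] at h
      exact h
    have hmn : ∀ (n : ℕ) (e : Ex ι D), ∑ b, (e.1 b : ℕ) = n →
        δ (mn e) = mo w lam μ e * ∑ b, ((e.1 b : ℕ) : ℂ) * (δ (nb b) / xb w lam μ b) := by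
      intro n
      induction n with
      | zero =>
        intro e he
        have h0 : ∀ b, (e.1 b : ℕ) = 0 := by
          intro b
          exact (Finset.sum_eq_zero_iff.1 he) b (Finset.mem_univ b)
        have h1 : e = ex0 := by
          apply Subtype.ext
          funext b
          apply Fin.ext
          rw [h0 b]
          rfl
        rw [Finset.sum_eq_zero (fun b _ => by rw [h0 b]; simp), mul_zero, h1]
        exact hmu
      | succ n ih =>
        intro e he
        have h0 : ∃ b, 0 < (e.1 b : ℕ) := by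
          by_contra hcon
          push Not at hcon
          have : ∑ b, (e.1 b : ℕ) = 0 :=
            Finset.sum_eq_zero fun b _ => Nat.le_zero.1 (hcon b)
          omega
        obtain ⟨e', he'⟩ : ∃ e' : {e : Ex ι D // ∃ b, 0 < (e.1 b : ℕ)}, e'.1 = e := ⟨⟨e, h0⟩, rfl⟩
        subst he'
        have h1 := deg_pre e'
        rw [hP e', ih (pre e') (by omega), mo_pre, sum_pre (fun b => δ (nb b) / xb w lam μ b) e']
        have h2 := hX (ch e')
        field_simp
    -- the partial sums
    have hS : ∀ l (j : Fin (r l)), δ (ps l (nx j)) = δ (ps l j) + (ε l j : ℂ) * δ (mn (M l j)) := by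
      intro l j
      rcases hε l j with h1 | h1
      · have h := key (Sum.inr (Sum.inr ⟨l, j⟩))
        have e2 : nd ε M (Sum.inr (Sum.inr ⟨l, j⟩), 2) = ps l (nx j) := by
          show (if ε l j = 1 then ps l (nx j) else ps l j) = _
          rw [if_pos h1]
        have e0 : nd ε M (Sum.inr (Sum.inr ⟨l, j⟩), 0) = ps l j := by
          show (if ε l j = 1 then ps l j else ps l (nx j)) = _
          rw [if_pos h1]
        have e1 : nd ε M (Sum.inr (Sum.inr ⟨l, j⟩), 1) = mn (M l j) := rfl
        rw [e2, e0, e1] at h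
        simp only [kd, if_true] at h
        rw [h, h1]
        push_cast
        ring
      · have h := key (Sum.inr (Sum.inr ⟨l, j⟩))
        have hne : ¬ ε l j = 1 := by rw [h1]; decide
        have e2 : nd ε M (Sum.inr (Sum.inr ⟨l, j⟩), 2) = ps l j := by
          show (if ε l j = 1 then ps l (nx j) else ps l j) = _
          rw [if_neg hne]
        have e0 : nd ε M (Sum.inr (Sum.inr ⟨l, j⟩), 0) = ps l (nx j) := by
          show (if ε l j = 1 then ps l j else ps l (nx j)) = _
          rw [if_neg hne]
        have e1 : nd ε M (Sum.inr (Sum.inr ⟨l, j⟩), 1) = mn (M l j) := rfl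
        rw [e2, e0, e1] at h
        simp only [kd, if_true] at h
        rw [h, h1]
        push_cast
        ring
    have hloc : ∀ l, δ (Sum.inl (el l)) = 0 := by
      intro l
      have h2 : ∑ j : Fin (r l), δ (ps l (nx j)) = ∑ j : Fin (r l), δ (ps l j) :=
        Equiv.sum_comp (finRotate (r l)) (fun j => δ (ps l j))
      rw [Finset.sum_congr rfl (fun j _ => hS l j), Finset.sum_add_distrib] at h2
      have h3 := add_eq_left.mp h2
      have h4 : ∀ j, δ (mn (M l j)) = mo w lam μ (M l j) *
          ((((M l j).1 (some (Sum.inr (el l))) : ℕ) : ℂ) *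
            (δ (Sum.inl (el l)) / xb w lam μ (some (Sum.inr (el l))))) := by
        intro j
        rw [hmn _ (M l j) rfl]
        congr 1
        rw [Finset.sum_eq_single (some (Sum.inr (el l)))]
        · rw [← hW]
          rfl
        · intro b _ hb
          rcases b with _ | i | i
          · have : δ (nb (none : Bs ι)) = 0 := hmu
            rw [this]
            simp
          · have : δ (nb (some (Sum.inl i) : Bs ι)) = 0 := hlam i
            rw [this]
            simp
          · by_cases hi : i ∈ Set.range el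
            · obtain ⟨l', rfl⟩ := hi
              have hl : l' ≠ l := by
                rintro rfl
                exact hb rfl
              rw [hsupp l j l' hl]
              simp
            · have : δ (nb (some (Sum.inr i) : Bs ι)) = 0 := (hW i).trans (hw i hi)
              rw [this]
              simp
        · intro h
          exact absurd (Finset.mem_univ _) h
      have h5 : (∑ j, (((M l j).1 (some (Sum.inr (el l))) : ℕ) : ℂ) * tm ε M w lam μ l j) *
          (δ (Sum.inl (el l)) / xb w lam μ (some (Sum.inr (el l)))) = 0 := by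
        rw [← h3, Finset.sum_mul]
        refine Finset.sum_congr rfl fun j _ => ?_
        rw [h4 j]
        unfold tm
        ring
      have h6 := (mul_eq_zero.mp h5).resolve_left (hgrad l)
      rw [div_eq_zero_iff] at h6
      exact h6.resolve_right (hX _)
    have hw' : ∀ i, δ (Sum.inl i) = 0 := by
      intro i
      by_cases hi : i ∈ Set.range el
      · obtain ⟨l, rfl⟩ := hi
        exact hloc l
      · exact hw i hi
    have hnb : ∀ b : Bs ι, δ (nb b) = 0 := by
      intro b
      rcases b with _ | i | i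
      · exact hmu
      · exact hlam i
      · exact (hW i).trans (hw' i)
    have hmn0 : ∀ e : Ex ι D, δ (mn e) = 0 := by
      intro e
      rw [hmn _ e rfl, Finset.sum_eq_zero (fun b _ => by rw [hnb b]; simp), mul_zero]
    have hps : ∀ l (n : ℕ) (hn : n < r l), δ (ps l ⟨n, hn⟩) = 0 := by
      intro l n
      induction n with
      | zero => intro hn; exact hps0 l
      | succ n ih =>
        intro hn
        have h1 := hS l ⟨n, by omega⟩
        have h2 : nx (⟨n, by omega⟩ : Fin (r l)) = ⟨n + 1, hn⟩ :=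
          Fin.ext ((nx_spec (⟨n, by omega⟩ : Fin (r l))).1 hn)
        rw [ih (by omega), h2, hmn0] at h1
        rw [h1]
        ring
    funext v
    rcases v with i | (i | i) | e | ⟨l, j⟩
    · exact hw' i
    · exact hlam i
    · exact (hW i).trans (hw' i)
    · exact hmn0 e
    · exact hps l j.val j.isLt

end Pool.Agent.W717.YP.YL
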